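import Pool.Agent.Helper2_Pack.Stmts2

/-!
# The layout of a system is correct (PACK module U1)
-/

set_option autoImplicit false

namespace Pool.Agent.Helper61_Pack

open Pool.Agent.Helper2_Pack

theorem dcell_iff {n : ℕ} {k : Con} {o r : ℕ} : dcell n k o r = true ↔
    (o < 2 * n ∧ ∃ i ∈ k.first, o = r + 2 * i) ∨
    (o < 2 * n + 1 ∧ ∃ j ∈ k.second, o = r + (2 * j + 1)) := by
  simp [dcell]

theorem vcell_iff {n : ℕ} {k : Con} {o r : ℕ} : vcell n k o r = true ↔
    (o = 2 * n ∧ ∃ i ∈ k.first, 2 * n ≤ r + 2 * i) ∨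
    (o = 2 * n + 1 ∧ ∃ j ∈ k.second, 2 * n ≤ r + 2 * j) := by
  simp [vcell]

theorem WF_first {n : ℕ} {k : Con} (hk : k.WF n) : ∀ i ∈ k.first, i < n := by
  cases k with
  | sum I κ => exact hk.2.2.2.1
  | inv i j =>
    intro a ha
    simp only [Con.first, List.mem_singleton] at ha
    have h1 := hk.1
    have h2 := hk.2
    omega

theorem WF_second {n : ℕ} {k : Con} (hk : k.WF n) : ∀ j ∈ k.second, j < n ∧ ∀ i ∈ k.first, i < j := by
  cases k with
  | sum I κ => intro j hj; simp [Con.second] at hj
  | inv i j =>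
    intro a ha
    simp only [Con.second, List.mem_singleton] at ha
    subst ha
    refine ⟨hk.2, fun b hb => ?_⟩
    simp only [Con.first, List.mem_singleton] at hb
    subst hb
    exact hk.1

theorem second_unique {k : Con} {j j' : ℕ} (h : j ∈ k.second) (h' : j' ∈ k.second) : j = j' := by
  cases k with
  | sum I κ => simp [Con.second] at h
  | inv a b =>
    simp only [Con.second, List.mem_singleton] at h h'
    omega

section Block

variable {n : ℕ} {k : Con} (hk : k.WF n) {o r : ℕ}
include hk

theorem fact1 (h : dcell n k (o + 1) r = true) (h' : dcell n k o r = true) : False := by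
  rw [dcell_iff] at h h'
  rcases h with ⟨h1, i, hi, h2⟩ | ⟨h1, j, hj, h2⟩ <;>
    rcases h' with ⟨h3, i', hi', h4⟩ | ⟨h3, j', hj', h4⟩
  · omega
  · have := (WF_second hk j' hj').2 i hi
    omega
  · have := (WF_second hk j hj).2 i' hi'
    omega
  · omega

theorem fact2 (h : dcell n k o r = true) (h' : dcell n k o (r + 1) = true) : False := by
  rw [dcell_iff] at h h'
  rcases h with ⟨h1, i, hi, h2⟩ | ⟨h1, j, hj, h2⟩ <;>
    rcases h' with ⟨h3, i', hi', h4⟩ | ⟨h3, j', hj', h4⟩
  · omega
  · have := (WF_second hk j' hj').2 i hi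
    omega
  · have := (WF_second hk j hj).2 i' hi'
    omega
  · omega

theorem fact3 (h : dcell n k o r = true) (h' : vcell n k o (r + 1) = true) : False := by
  rw [dcell_iff] at h
  rw [vcell_iff] at h'
  rcases h with ⟨h1, i, hi, h2⟩ | ⟨h1, j, hj, h2⟩ <;>
    rcases h' with ⟨h3, i', hi', h4⟩ | ⟨h3, j', hj', h4⟩
  · omega
  · omega
  · have := (WF_second hk j hj).2 i' hi'
    omega
  · omega

omit hk in
theorem fact4 (h : dcell n k o r = true) : dcell n k (o + 1) (r + 1) = true ∨
    vcell n k (o + 1) (r + 1) = true := by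
  rw [dcell_iff] at h ⊢
  rw [vcell_iff]
  rcases h with ⟨h1, i, hi, h2⟩ | ⟨h1, j, hj, h2⟩
  · by_cases h3 : o + 1 < 2 * n
    · exact Or.inl (Or.inl ⟨h3, i, hi, by omega⟩)
    · exact Or.inr (Or.inl ⟨by omega, i, hi, by omega⟩)
  · by_cases h3 : o + 1 < 2 * n + 1
    · exact Or.inl (Or.inr ⟨h3, j, hj, by omega⟩)
    · exact Or.inr (Or.inr ⟨by omega, j, hj, by omega⟩)

theorem fact5 (h : dcell n k (o + 1) (r + 1) = true) (h' : vcell n k (o + 1) r = true) :
    False := by
  rw [dcell_iff] at h
  rw [vcell_iff] at h'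
  rcases h with ⟨h1, i, hi, h2⟩ | ⟨h1, j, hj, h2⟩ <;>
    rcases h' with ⟨h3, i', hi', h4⟩ | ⟨h3, j', hj', h4⟩
  · omega
  · omega
  · have := (WF_second hk j hj).2 i' hi'
    omega
  · omega

omit hk in
theorem fact6 (h : dcell n k (o + 1) (r + 1) = true) : dcell n k o r = true := by
  rw [dcell_iff] at h ⊢
  rcases h with ⟨h1, i, hi, h2⟩ | ⟨h1, j, hj, h2⟩
  · exact Or.inl ⟨by omega, i, hi, by omega⟩
  · exact Or.inr ⟨by omega, j, hj, by omega⟩

omit hk in
theorem fact6' (h : dcell n k 0 (r + 1) = true) : False := by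
  rw [dcell_iff] at h
  rcases h with ⟨h1, i, hi, h2⟩ | ⟨h1, j, hj, h2⟩ <;> omega

theorem fact7 (h : vcell n k o (r + 1) = true) (h' : vcell n k o r = false) :
    0 < o ∧ dcell n k (o - 1) r = true := by
  rw [Bool.eq_false_iff, Ne, vcell_iff] at h'
  rw [vcell_iff] at h
  rw [dcell_iff]
  push Not at h'
  obtain ⟨h1, h2⟩ := h'
  rcases h with ⟨h3, i, hi, h4⟩ | ⟨h3, j, hj, h4⟩
  · have := h1 h3 i hi
    have := WF_first hk i hi
    exact ⟨by omega, Or.inl ⟨by omega, i, hi, by omega⟩⟩
  · have := h2 h3 j hj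
    have := (WF_second hk j hj).1
    exact ⟨by omega, Or.inr ⟨by omega, j, hj, by omega⟩⟩

omit hk in
theorem fact8 (h : vcell n k o r = true) : vcell n k o (r + 1) = true := by
  rw [vcell_iff] at h ⊢
  rcases h with ⟨h3, i, hi, h4⟩ | ⟨h3, j, hj, h4⟩
  · exact Or.inl ⟨h3, i, hi, by omega⟩
  · exact Or.inr ⟨h3, j, hj, by omega⟩

theorem fact9 (h : vcell n k o r = true) (h' : dcell n k o r = true) : False := by
  rw [vcell_iff] at h
  rw [dcell_iff] at h'
  rcases h' with ⟨h1, i, hi, h2⟩ | ⟨h1, j, hj, h2⟩ <;>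
    rcases h with ⟨h3, i', hi', h4⟩ | ⟨h3, j', hj', h4⟩
  · omega
  · omega
  · have := (WF_second hk j hj).2 i' hi'
    omega
  · omega

end Block

/-- the colour for given truth values -/
def colOf (d v σ : Bool) : Col := if d then .D else if v then pcol σ else .zero

theorem mkTile_props : ∀ σ dB vB lB dT vT : Bool, (dB = true → lB = false) →
    (dB = true → dT = false) → (dB = true → vT = false) → (lB = true → dT = true ∨ vT = true) →
    (dT = true → vB = false) → (dT = true → lB = true) → (vT = true → vB = false → lB = true) →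
    (vB = true → vT = true) → (vB = true → dB = false) → (vT = true → dT = false) →
    (mkTile (colOf dB vB σ) lB (colOf dT vT σ) dB).bot = colOf dB vB σ ∧
    (mkTile (colOf dB vB σ) lB (colOf dT vT σ) dB).top = colOf dT vT σ ∧
    (mkTile (colOf dB vB σ) lB (colOf dT vT σ) dB).wide = dB ∧
    (mkTile (colOf dB vB σ) lB (colOf dT vT σ) dB).narrow = lB ∧
    ((mkTile (colOf dB vB σ) lB (colOf dT vT σ) dB).sgn ≠ 0 → lB = true ∧ dT = false) := by
  intro σ dB vB lB dT vT
  cases σ <;> cases dB <;> cases vB <;> cases lB <;> cases dT <;> cases vT <;>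
    simp [mkTile, colOf, pcol, Tile.bot, Tile.top, Tile.wide, Tile.narrow, Tile.sgn]

theorem hcol_eq (n : ℕ) (σ : Bool) (k : Con) (o r : ℕ) :
    hcol n σ k o r = colOf (dcell n k o r) (vcell n k o r) σ := rfl

theorem blockTile_props {n : ℕ} {k : Con} (hk : k.WF n) (σ : Bool) (o r : ℕ) :
    (blockTile n σ k o r).bot = hcol n σ k o r ∧
    (blockTile n σ k o r).top = hcol n σ k o (r + 1) ∧
    (blockTile n σ k o r).wide = dcell n k o r ∧
    (blockTile n σ k o r).narrow = (decide (0 < o) && dcell n k (o - 1) r) ∧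
    ((blockTile n σ k o r).sgn ≠ 0 → (decide (0 < o) && dcell n k (o - 1) r) = true ∧
      dcell n k o (r + 1) = false) := by
  simp only [blockTile, hcol_eq]
  apply mkTile_props
  · intro h
    cases o with
    | zero => simp
    | succ o =>
      rw [Bool.eq_false_iff]
      intro h'
      simp only [Nat.add_sub_cancel, Bool.and_eq_true] at h'
      exact fact1 hk h h'.2
  · intro h
    rw [Bool.eq_false_iff]
    exact fun h' => fact2 hk h h'
  · intro h
    rw [Bool.eq_false_iff]
    exact fun h' => fact3 hk h h'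
  · intro h
    cases o with
    | zero => simp at h
    | succ o =>
      simp only [Nat.add_sub_cancel, Bool.and_eq_true] at h
      exact fact4 h.2
  · intro h
    rw [Bool.eq_false_iff]
    intro h'
    cases o with
    | zero => exact fact6' h
    | succ o => exact fact5 hk h h'
  · intro h
    cases o with
    | zero => exact (fact6' h).elim
    | succ o =>
      simp only [Nat.add_sub_cancel, Bool.and_eq_true]
      exact ⟨by simp, fact6 h⟩
  · intro h h'
    obtain ⟨h1, h2⟩ := fact7 hk h h'
    simp only [Bool.and_eq_true, decide_eq_true_eq]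
    exact ⟨h1, h2⟩
  · exact fun h => fact8 h
  · intro h
    rw [Bool.eq_false_iff]
    exact fun h' => fact9 hk h h'
  · intro h
    rw [Bool.eq_false_iff]
    exact fun h' => fact9 hk h h'

/-- tiles of adders and subtractors -/
theorem sgn_pos {n : ℕ} {k : Con} (hk : k.WF n) {σ : Bool} {o r : ℕ}
    (h : (blockTile n σ k o r).sgn ≠ 0) :
    (o = 2 * n ∧ ∃ i ∈ k.first, 2 * n = r + 1 + 2 * i) ∨
    (o = 2 * n + 1 ∧ ∃ j ∈ k.second, 2 * n = r + 1 + 2 * j) := by
  obtain ⟨h1, h2⟩ := (blockTile_props hk σ o r).2.2.2.2 h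
  cases o with
  | zero => simp at h1
  | succ o =>
    simp only [Nat.add_sub_cancel, Bool.and_eq_true] at h1
    have h3 := h1.2
    rw [Bool.eq_false_iff, Ne, dcell_iff] at h2
    push Not at h2
    rw [dcell_iff] at h3
    rcases h3 with ⟨h3, i, hi, h4⟩ | ⟨h3, j, hj, h4⟩
    · left
      have h5 : ¬ (o + 1 < 2 * n) := fun h6 => h2.1 h6 i hi (by omega)
      exact ⟨by omega, i, hi, by omega⟩
    · right
      have h5 : ¬ (o + 1 < 2 * n + 1) := fun h6 => h2.2 h6 j hj (by omega)
      exact ⟨by omega, j, hj, by omega⟩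

/-! ## Columns of the layout -/

section Cols

variable {S : SInst} (hS : S.WF)
include hS

theorem len_pos : 0 < S.cons.length := List.length_pos_iff.2 hS.1

theorem con_WF (c : ℕ) : (S.con c).WF S.n := by
  have h1 : c / (2 * S.n + 2) % S.cons.length < S.cons.length := Nat.mod_lt _ (len_pos hS)
  unfold SInst.con
  rw [List.getD_eq_getElem _ _ h1]
  exact hS.2 _ (List.getElem_mem h1)

theorem ty_props (c r : ℕ) :
    (S.layout.ty c r).bot = hcol S.n (S.sig c) (S.con c) (c % (2 * S.n + 2)) r ∧
    (S.layout.ty c r).top = hcol S.n (S.sig c) (S.con c) (c % (2 * S.n + 2)) (r + 1) ∧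
    (S.layout.ty c r).wide = dcell S.n (S.con c) (c % (2 * S.n + 2)) r ∧
    (S.layout.ty c r).narrow = (decide (0 < c % (2 * S.n + 2)) &&
      dcell S.n (S.con c) (c % (2 * S.n + 2) - 1) r) ∧
    ((S.layout.ty c r).sgn ≠ 0 → (decide (0 < c % (2 * S.n + 2)) &&
      dcell S.n (S.con c) (c % (2 * S.n + 2) - 1) r) = true ∧
      dcell S.n (S.con c) (c % (2 * S.n + 2)) (r + 1) = false) :=
  blockTile_props (con_WF hS c) (S.sig c) (c % (2 * S.n + 2)) r

omit hS in
/-- the next column is in the same block -/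
theorem next_same {c : ℕ} (h : c % (2 * S.n + 2) + 1 < 2 * S.n + 2) :
    (c + 1) % (2 * S.n + 2) = c % (2 * S.n + 2) + 1 ∧
    (c + 1) / (2 * S.n + 2) = c / (2 * S.n + 2) ∧
    S.con (c + 1) = S.con c ∧ S.sig (c + 1) = S.sig c := by
  have h0 : c = (2 * S.n + 2) * (c / (2 * S.n + 2)) + c % (2 * S.n + 2) :=
    (Nat.div_add_mod c (2 * S.n + 2)).symm
  have h1 : (c + 1) / (2 * S.n + 2) = c / (2 * S.n + 2) := by
    conv_lhs => rw [h0]
    rw [add_assoc, Nat.mul_add_div (by omega)]
    rw [Nat.div_eq_of_lt h, add_zero]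
  have h2 : (c + 1) % (2 * S.n + 2) = c % (2 * S.n + 2) + 1 := by
    conv_lhs => rw [h0]
    rw [add_assoc, Nat.mul_add_mod]
    exact Nat.mod_eq_of_lt h
  exact ⟨h2, h1, by unfold SInst.con; rw [h1], by unfold SInst.sig; rw [h1]⟩

omit hS in
/-- the next column starts a new block -/
theorem next_new {c : ℕ} (h : ¬ c % (2 * S.n + 2) + 1 < 2 * S.n + 2) :
    c % (2 * S.n + 2) = 2 * S.n + 1 ∧ (c + 1) % (2 * S.n + 2) = 0 ∧
    (c + 1) / (2 * S.n + 2) = c / (2 * S.n + 2) + 1 := by
  have h3 : c % (2 * S.n + 2) < 2 * S.n + 2 := Nat.mod_lt _ (by omega)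
  have h4 : c % (2 * S.n + 2) = 2 * S.n + 1 := by omega
  have h0 : c + 1 = (2 * S.n + 2) * (c / (2 * S.n + 2) + 1) := by
    have := (Nat.div_add_mod c (2 * S.n + 2)).symm
    rw [mul_add, mul_one]
    omega
  refine ⟨h4, ?_, ?_⟩
  · rw [h0, Nat.mul_mod_right]
  · rw [h0, Nat.mul_div_cancel_left _ (by omega)]

omit hS in
theorem M_eq : S.layout.M = 2 * S.cons.length * (2 * S.n + 2) := rfl

omit hS in
theorem N_eq : S.layout.N = 2 * S.n + 1 := rfl

omit hS in
/-- the ceiling of the layout -/
theorem top_eq {c : ℕ} (hc : c < S.layout.M) :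
    S.layout.top c = blockTop S.n (S.sig c) (S.con c) (c % (2 * S.n + 2)) := by
  have hc' : c < 2 * S.cons.length * (2 * S.n + 2) := hc
  show (if c < 2 * S.cons.length * (2 * S.n + 2) then _ else _) = _
  rw [if_pos hc']

omit hS in
theorem dcell_ceil {n : ℕ} {k : Con} {o : ℕ} : dcell n k o (2 * n + 1) = false := by
  rw [Bool.eq_false_iff, Ne, dcell_iff]
  rintro (⟨h1, i, -, h2⟩ | ⟨h1, i, -, h2⟩) <;> omega

omit hS in
theorem hcol_ceil {n : ℕ} {k : Con} (hk : k.WF n) (σ : Bool) (o : ℕ) :
    hcol n σ k o (2 * n + 1) = (blockTop n σ k o).col := by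
  rw [hcol_eq, dcell_ceil]
  cases k with
  | sum I κ =>
    by_cases ho : o = 2 * n
    · have : vcell n (.sum I κ) o (2 * n + 1) = true := by
        rw [vcell_iff]
        obtain ⟨i, hi⟩ := List.exists_mem_of_ne_nil _ hk.1
        exact Or.inl ⟨ho, i, hi, by omega⟩
      rw [this]
      simp [colOf, blockTop, ho, Top.col]
    · have : vcell n (.sum I κ) o (2 * n + 1) = false := by
        rw [Bool.eq_false_iff, Ne, vcell_iff]
        rintro (⟨h1, -⟩ | ⟨-, i, hi, -⟩)
        · exact ho h1
        · simp [Con.second] at hi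
      rw [this]
      simp [colOf, blockTop, ho, Top.col]
  | inv i j =>
    by_cases ho : o = 2 * n
    · have : vcell n (.inv i j) o (2 * n + 1) = true := by
        rw [vcell_iff]
        exact Or.inl ⟨ho, i, by simp [Con.first], by omega⟩
      rw [this]
      simp [colOf, blockTop, ho, Top.col]
    · by_cases ho' : o = 2 * n + 1
      · have : vcell n (.inv i j) o (2 * n + 1) = true := by
          rw [vcell_iff]
          exact Or.inr ⟨ho', j, by simp [Con.second], by omega⟩
        rw [this]
        simp [colOf, blockTop, ho', Top.col]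
      · have : vcell n (.inv i j) o (2 * n + 1) = false := by
          rw [Bool.eq_false_iff, Ne, vcell_iff]
          rintro (⟨h1, -⟩ | ⟨h1, -⟩)
          · exact ho h1
          · exact ho' h1
        rw [this]
        simp [colOf, blockTop, ho, ho', Top.col]

end Cols

theorem u1 : U1Stmt := by
  intro S hS
  have hL := len_pos hS
  have hM : 0 < S.layout.M := by
    rw [M_eq]
    positivity
  have hfits : Fits S.layout S.layout.ty := by
    refine ⟨?_, ?_, ?_, ?_, fun _ _ => rfl, ?_⟩
    · intro c r _ _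
      rw [(ty_props hS c r).2.1, (ty_props hS c (r + 1)).1]
    · intro c r hc _
      rw [(ty_props hS c r).2.2.1, (ty_props hS (c + 1) r).2.2.2.1]
      by_cases h : c % (2 * S.n + 2) + 1 < 2 * S.n + 2
      · obtain ⟨h1, h2, h3, h4⟩ := next_same h
        rw [h1, h3]
        simp
      · obtain ⟨h1, h2, h3⟩ := next_new h
        rw [h1, h2]
        have : dcell S.n (S.con c) (2 * S.n + 1) r = false := by
          rw [Bool.eq_false_iff, Ne, dcell_iff]
          rintro (⟨h1, -⟩ | ⟨h1, -⟩) <;> omega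
        rw [this]
        simp
    · intro r _
      rw [(ty_props hS 0 r).2.2.2.1]
      simp
    · intro r _
      rw [(ty_props hS _ r).2.2.1]
      have h1 : (S.layout.M - 1) % (2 * S.n + 2) = 2 * S.n + 1 := by
        rw [M_eq]
        have h2 : 2 * S.cons.length * (2 * S.n + 2) - 1 =
            (2 * S.n + 2) * (2 * S.cons.length - 1) + (2 * S.n + 1) := by
          have h3 : 2 * S.cons.length * (2 * S.n + 2) =
              (2 * S.n + 2) * (2 * S.cons.length - 1) + (2 * S.n + 2) := by
            have h4 : 2 * S.cons.length = (2 * S.cons.length - 1) + 1 := by omega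
            conv_lhs => rw [h4]
            ring
          rw [h3]
          omega
        rw [h2, Nat.mul_add_mod]
        exact Nat.mod_eq_of_lt (by omega)
      rw [h1, Bool.eq_false_iff, Ne, dcell_iff]
      rintro (⟨h1, -⟩ | ⟨h1, -⟩) <;> omega
    · intro c hc
      rw [(ty_props hS c _).2.1, N_eq, Nat.add_sub_cancel, hcol_ceil (con_WF hS c), top_eq hc]
  refine ⟨hM, hfits, ?_, ?_, ?_, ?_, ?_, ?_⟩
  · intro c _
    rw [(ty_props hS c 0).1, hcol_eq]
    by_cases h : dcell S.n (S.con c) (c % (2 * S.n + 2)) 0 = true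
    · right; rw [h]; rfl
    · left
      have h1 : vcell S.n (S.con c) (c % (2 * S.n + 2)) 0 = false := by
        rw [Bool.eq_false_iff, Ne, vcell_iff]
        rintro (⟨h1, i, hi, h2⟩ | ⟨h1, j, hj, h2⟩)
        · have := WF_first (con_WF hS c) i hi
          omega
        · have := (WF_second (con_WF hS c) j hj).1
          omega
      rw [Bool.not_eq_true] at h
      rw [h, h1]
      rfl
  · intro c r _ _ h
    rcases sgn_pos (con_WF hS c) h with ⟨-, i, -, h1⟩ | ⟨-, i, -, h1⟩ <;> omega
  · intro c σ hc h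
    rw [top_eq hc] at h
    have hk : ∃ i j, S.con c = .inv i j ∧ c % (2 * S.n + 2) = 2 * S.n ∧ S.sig c = σ := by
      cases hcon : S.con c with
      | sum I κ => rw [hcon] at h; simp only [blockTop] at h; split at h <;> simp at h
      | inv i j =>
        rw [hcon] at h
        simp only [blockTop] at h
        split at h
        · next h1 =>
          simp only [Top.portL.injEq] at h
          exact ⟨i, j, rfl, h1, h⟩
        · split at h <;> simp at h
    obtain ⟨i, j, h1, h2, h3⟩ := hk
    have h4 : c % (2 * S.n + 2) + 1 < 2 * S.n + 2 := by omega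
    obtain ⟨h5, h6, h7, h8⟩ := next_same h4
    have hlt : c + 1 < S.layout.M := by
      rw [M_eq] at hc ⊢
      have h9 := Nat.div_add_mod (c + 1) (2 * S.n + 2)
      rw [h6, h5] at h9
      have h10 : c / (2 * S.n + 2) < 2 * S.cons.length :=
        Nat.div_lt_of_lt_mul (by rw [mul_comm]; exact hc)
      have h11 : (2 * S.n + 2) * (c / (2 * S.n + 2) + 1) ≤ (2 * S.n + 2) * (2 * S.cons.length) :=
        Nat.mul_le_mul_left _ h10
      rw [mul_add, mul_one] at h11
      rw [mul_comm (2 * S.cons.length)]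
      omega
    refine ⟨hlt, ?_⟩
    rw [top_eq hlt, h7, h8, h5, h1, h2, h3]
    simp [blockTop]
  · intro c σ hc h
    rw [top_eq hc] at h
    have hk : ∃ i j, S.con c = .inv i j ∧ c % (2 * S.n + 2) = 2 * S.n + 1 ∧ S.sig c = σ := by
      cases hcon : S.con c with
      | sum I κ => rw [hcon] at h; simp only [blockTop] at h; split at h <;> simp at h
      | inv i j =>
        rw [hcon] at h
        simp only [blockTop] at h
        split at h
        · simp at h
        · split at h
          · next h1 =>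
            simp only [Top.portR.injEq] at h
            exact ⟨i, j, rfl, h1, h⟩
          · simp at h
    obtain ⟨i, j, h1, h2, h3⟩ := hk
    have h0 : 0 < c := by
      rcases Nat.eq_zero_or_pos c with rfl | h0
      · simp at h2
      · exact h0
    obtain ⟨c', rfl⟩ := Nat.exists_eq_succ_of_ne_zero h0.ne'
    simp only [Nat.succ_eq_add_one] at *
    have h4 : c' % (2 * S.n + 2) + 1 < 2 * S.n + 2 := by
      by_contra h4
      obtain ⟨h5, h6, h7⟩ := next_new h4
      omega
    obtain ⟨h5, h6, h7, h8⟩ := next_same h4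
    refine ⟨h0, ?_⟩
    rw [Nat.add_sub_cancel, top_eq (by omega), ← h7, ← h8, h1, h3]
    have : c' % (2 * S.n + 2) = 2 * S.n := by omega
    rw [this]
    simp [blockTop]
  · intro c a o hc h
    rw [top_eq hc] at h
    have hk := con_WF hS c
    cases hcon : S.con c with
    | sum I κ =>
      rw [hcon] at h hk
      simp only [blockTop] at h
      split at h
      · simp only [Top.flat.injEq] at h
        obtain ⟨rfl, rfl⟩ := h
        refine ⟨?_, ?_⟩
        · cases S.sig c <;> simp [pcol]
        · rcases hk.2.2.2.2 with h1 | h1 | h1 <;> rw [h1] <;> cases S.sig c <;> simp [sg]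
      · simp only [Top.flat.injEq] at h
        obtain ⟨rfl, rfl⟩ := h
        exact ⟨by simp, by simp⟩
    | inv i j =>
      rw [hcon] at h
      simp only [blockTop] at h
      split at h
      · simp at h
      · split at h
        · simp at h
        · simp only [Top.flat.injEq] at h
          obtain ⟨rfl, rfl⟩ := h
          exact ⟨by simp, by simp⟩
  · intro c hc
    have hc' : ¬ c < 2 * S.cons.length * (2 * S.n + 2) := not_lt.2 hc
    show (if c < 2 * S.cons.length * (2 * S.n + 2) then _ else _) = _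
    rw [if_neg hc']

end Pool.Agent.Helper61_Pack
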