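import Pool.Agent.Helper61_Pack.U1

/-!
# The tiles are determined by the floor, the ceiling and the walls (PACK module U2)
-/

set_option autoImplicit false

namespace Pool.Agent.Helper61_Pack

open Pool.Agent.Helper2_Pack

theorem tile_D : ∀ a : Tile, a.bot = .D → a.wide = true ∧ a.top = .zero ∧ a.narrow = false := by
  decide

theorem tile_wide : ∀ a : Tile, a.wide = true → a.bot = .D := by decide

theorem tile_pers : ∀ a : Tile, (a.bot = .V → a.top = .V) ∧ (a.bot = .W → a.top = .W) := by
  decide

theorem tile_narrow : ∀ a : Tile, a.narrow = true → a.top ≠ .zero := by decide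

theorem tile_topD : ∀ a : Tile, a.top = .D → a.narrow = true := by decide

theorem tile_plain : ∀ a : Tile, a.bot = .zero → a.narrow = false → a.top = .zero := by decide

theorem tile_uniq0 : ∀ a b : Tile, a.bot = b.bot → a.narrow = b.narrow →
    (a.top = .zero ∨ a.top = .D) → (b.top = .zero ∨ b.top = .D) → a = b := by decide

theorem tile_uniq1 : ∀ (e : Col) (a b : Tile), e ≠ .D → a.bot = b.bot → a.narrow = b.narrow →
    (a.top = .zero ∨ a.top = .D ∨ a.top = e) → (b.top = .zero ∨ b.top = .D ∨ b.top = e) →
    (a.top = .D ↔ b.top = .D) → a = b := by decide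

section General

variable {G : Layout} {ty : ℕ → ℕ → Tile} (h : Fits G ty)
include h

theorem stay_e {c : ℕ} (hc : c < G.M) {e : Col} (he : e = .V ∨ e = .W) :
    ∀ (k r : ℕ), r + k + 1 = G.N → (ty c r).top = e →
      (G.top c).col = e ∧ ∀ r', r < r' → r' < G.N → (ty c r').bot = e := by
  intro k
  induction k with
  | zero =>
    intro r hr ht
    have h1 := h.ceil c hc
    have h2 : G.N - 1 = r := by omega
    rw [h2] at h1
    exact ⟨by rw [← h1, ht], fun r' h3 h4 => by omega⟩
  | succ k ih =>
    intro r hr ht
    have h1 := h.vert c r hc (by omega)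
    rw [ht] at h1
    have h2 : (ty c (r + 1)).top = e := by
      rcases he with rfl | rfl
      · exact (tile_pers _).1 h1.symm
      · exact (tile_pers _).2 h1.symm
    obtain ⟨h3, h4⟩ := ih (r + 1) (by omega) h2
    refine ⟨h3, fun r' h5 h6 => ?_⟩
    rcases Nat.lt_or_ge (r + 1) r' with h7 | h7
    · exact h4 r' h7 h6
    · have : r' = r + 1 := by omega
      rw [this, h1]

theorem top_cases {c r : ℕ} (hc : c < G.M) (hr : r < G.N) :
    (ty c r).top = .zero ∨ (ty c r).top = .D ∨ (ty c r).top = (G.top c).col := by
  cases ht : (ty c r).top with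
  | zero => exact Or.inl rfl
  | D => exact Or.inr (Or.inl rfl)
  | V =>
    have := (stay_e h hc (Or.inl rfl) (G.N - 1 - r) r (by omega) ht).1
    exact Or.inr (Or.inr this.symm)
  | W =>
    have := (stay_e h hc (Or.inr rfl) (G.N - 1 - r) r (by omega) ht).1
    exact Or.inr (Or.inr this.symm)

theorem stay_zero {c : ℕ} (hc : c < G.M) :
    ∀ (k r : ℕ), r + k + 1 = G.N → (ty c r).top = .zero →
      (∀ r', r < r' → r' < G.N → (ty c r').narrow = false) → (G.top c).col = .zero := by
  intro k
  induction k with
  | zero =>
    intro r hr ht _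
    have h1 := h.ceil c hc
    have h2 : G.N - 1 = r := by omega
    rw [h2] at h1
    rw [← h1, ht]
  | succ k ih =>
    intro r hr ht hn
    have h1 := h.vert c r hc (by omega)
    rw [ht] at h1
    exact ih (r + 1) (by omega) (tile_plain _ h1.symm (hn (r + 1) (by omega) (by omega)))
      (fun r' h2 h3 => hn r' (by omega) h3)

/-- a signal runs up to the next column with a coloured ceiling -/
theorem D_escapes : ∀ (k c r : ℕ), r + k + 1 = G.N → c < G.M → (ty c r).bot = .D →
    ∃ k', 1 ≤ k' ∧ k' ≤ k + 1 ∧ c + k' < G.M ∧ (G.top (c + k')).col ≠ .zero := by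
  intro k
  induction k with
  | zero =>
    intro c r hr hc hD
    have h1 : c + 1 < G.M := by
      by_contra h1
      have h2 := h.right r (by omega)
      have h3 : G.M - 1 = c := by omega
      rw [h3, (tile_D _ hD).1] at h2
      cases h2
    refine ⟨1, le_rfl, le_rfl, h1, ?_⟩
    have h2 := h.horiz c r h1 (by omega)
    rw [(tile_D _ hD).1] at h2
    have h3 := h.ceil (c + 1) h1
    have h4 : G.N - 1 = r := by omega
    rw [h4] at h3
    rw [← h3]
    exact tile_narrow _ h2.symm
  | succ k ih =>
    intro c r hr hc hD
    have h1 : c + 1 < G.M := by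
      by_contra h1
      have h2 := h.right r (by omega)
      have h3 : G.M - 1 = c := by omega
      rw [h3, (tile_D _ hD).1] at h2
      cases h2
    have h2 := h.horiz c r h1 (by omega)
    rw [(tile_D _ hD).1] at h2
    by_cases h3 : (G.top (c + 1)).col = .zero
    · have h4 := tile_narrow _ h2.symm
      have h5 : (ty (c + 1) r).top = .D := by
        rcases top_cases h h1 (show r < G.N by omega) with h6 | h6 | h6
        · exact absurd h6 h4
        · exact h6
        · rw [h3] at h6
          exact absurd h6 h4
      have h6 := h.vert (c + 1) r h1 (by omega)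
      rw [h5] at h6
      obtain ⟨k', h7, h8, h9, h10⟩ := ih (c + 1) (r + 1) (by omega) h1 h6.symm
      exact ⟨k' + 1, by omega, by omega, by omega, by
        rw [show c + (k' + 1) = c + 1 + k' by omega]; exact h10⟩
    · exact ⟨1, le_rfl, by omega, h1, h3⟩

end General

theorem col_uniq {G : Layout} {ty ty' : ℕ → ℕ → Tile} (h : Fits G ty) (h' : Fits G ty')
    {c : ℕ} (hc : c < G.M) (hD : (G.top c).col ≠ .D)
    (hn : ∀ r, r < G.N → (ty c r).narrow = (ty' c r).narrow)
    (hside : ∀ r, r < G.N → (∀ r', r' ≤ r → (ty c r').bot = (ty' c r').bot) →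
      (G.top c).col = .zero ∨ ((ty c r).top = .D ↔ (ty' c r).top = .D)) :
    ∀ r, r < G.N → ty c r = ty' c r := by
  have key : ∀ r, r < G.N → (∀ r', r' ≤ r → (ty c r').bot = (ty' c r').bot) →
      ty c r = ty' c r := by
    intro r hr hb
    have h1 := top_cases h hc hr
    have h2 := top_cases h' hc hr
    rcases hside r hr hb with h3 | h3
    · rw [h3] at h1 h2
      refine tile_uniq0 _ _ (hb r le_rfl) (hn r hr) ?_ ?_
      · rcases h1 with h1 | h1 | h1
        · exact Or.inl h1
        · exact Or.inr h1
        · exact Or.inl h1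
      · rcases h2 with h1 | h1 | h1
        · exact Or.inl h1
        · exact Or.inr h1
        · exact Or.inl h1
    · exact tile_uniq1 _ _ _ hD (hb r le_rfl) (hn r hr) h1 h2 h3
  have key2 : ∀ r, r < G.N → ∀ r', r' ≤ r → (ty c r').bot = (ty' c r').bot := by
    intro r
    induction r with
    | zero =>
      intro hr r' hr'
      obtain rfl : r' = 0 := by omega
      rw [h.floor c hc, h'.floor c hc]
    | succ r ih =>
      intro hr r' hr'
      rcases Nat.lt_or_ge r r' with h1 | h1
      · obtain rfl : r' = r + 1 := by omega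
        rw [← h.vert c r hc hr, ← h'.vert c r hc hr, key r (by omega) (ih (by omega))]
      · exact ih (by omega) r' h1
  intro r hr
  exact key r hr (key2 r hr)

section Sys

variable {S : SInst} (hS : S.WF)

/-- columns outside the last two columns of a block have ceilings of colour zero -/
theorem top_zero {c : ℕ} (hc : c < S.layout.M) (h : c % (2 * S.n + 2) < 2 * S.n) :
    (S.layout.top c).col = .zero := by
  rw [top_eq hc]
  cases S.con c with
  | sum I κ =>
    simp only [blockTop]
    rw [if_neg (by omega)]
    rfl
  | inv i j =>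
    simp only [blockTop]
    rw [if_neg (by omega), if_neg (by omega)]
    rfl

theorem top_zero' {c : ℕ} (hc : c < S.layout.M) (h : c % (2 * S.n + 2) = 2 * S.n + 1)
    {I : List ℕ} {κ : ℤ} (hk : S.con c = .sum I κ) : (S.layout.top c).col = .zero := by
  rw [top_eq hc, hk]
  simp only [blockTop]
  rw [if_neg (by omega)]
  rfl

theorem top_nonzero {c : ℕ} (hc : c < S.layout.M) (h : c % (2 * S.n + 2) = 2 * S.n) :
    (S.layout.top c).col = pcol (S.sig c) := by
  rw [top_eq hc]
  cases S.con c with
  | sum I κ =>
    simp only [blockTop]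
    rw [if_pos h]
    rfl
  | inv i j =>
    simp only [blockTop]
    rw [if_pos h]
    rfl

theorem top_nonzero' {c : ℕ} (hc : c < S.layout.M) (h : c % (2 * S.n + 2) = 2 * S.n + 1)
    {i j : ℕ} (hk : S.con c = .inv i j) : (S.layout.top c).col = pcol (S.sig c) := by
  rw [top_eq hc, hk]
  simp only [blockTop]
  rw [if_neg (by omega), if_pos h]
  rfl

theorem top_ne_D {c : ℕ} (hc : c < S.layout.M) : (S.layout.top c).col ≠ .D := by
  have h0 : c % (2 * S.n + 2) < 2 * S.n + 2 := Nat.mod_lt _ (by omega)
  have hp : ∀ σ, pcol σ ≠ .D := by decide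
  rcases Nat.lt_or_ge (c % (2 * S.n + 2)) (2 * S.n) with h | h
  · rw [top_zero hc h]; decide
  · by_cases h1 : c % (2 * S.n + 2) = 2 * S.n
    · rw [top_nonzero hc h1]; exact hp _
    · have h2 : c % (2 * S.n + 2) = 2 * S.n + 1 := by omega
      cases hk : S.con c with
      | sum I κ => rw [top_zero' hc h2 hk]; decide
      | inv i j => rw [top_nonzero' hc h2 hk]; exact hp _

include hS

/-- the last active column of a block carries no signal -/
theorem noD {ty : ℕ → ℕ → Tile} (h : Fits S.layout ty) {c r : ℕ} (hc : c < S.layout.M)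
    (hr : r < S.layout.N) (ho : c % (2 * S.n + 2) = 2 * S.n + 1 ∨
      (c % (2 * S.n + 2) = 2 * S.n ∧ ∃ I κ, S.con c = .sum I κ)) : (ty c r).bot ≠ .D := by
  intro hD
  have hN := N_eq (S := S)
  have hr0 : 1 ≤ r := by
    by_contra h0
    obtain rfl : r = 0 := by omega
    rw [h.floor c hc, (ty_props hS c 0).1, hcol_eq] at hD
    have h1 : dcell S.n (S.con c) (c % (2 * S.n + 2)) 0 = false := by
      rw [Bool.eq_false_iff, Ne, dcell_iff]
      rcases ho with ho | ⟨ho, I, κ, hk⟩
      · rw [ho]
        rintro (⟨h1, -⟩ | ⟨h1, -⟩) <;> omega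
      · rw [ho, hk]
        rintro (⟨h1, -⟩ | ⟨h1, j, hj, -⟩)
        · omega
        · simp [Con.second] at hj
    rw [h1] at hD
    have : ∀ v σ, colOf false v σ ≠ .D := by decide
    exact this _ _ hD
  obtain ⟨k', h1, h2, h3, h4⟩ := D_escapes h (S.layout.N - 1 - r) c r (by omega) hc hD
  have h5 : k' ≤ 2 * S.n := by omega
  have h0 : c = (2 * S.n + 2) * (c / (2 * S.n + 2)) + c % (2 * S.n + 2) :=
    (Nat.div_add_mod c (2 * S.n + 2)).symm
  rcases ho with ho | ⟨ho, I, κ, hk⟩
  · have h6 : (c + k') % (2 * S.n + 2) = k' - 1 := by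
      have : c + k' = (2 * S.n + 2) * (c / (2 * S.n + 2) + 1) + (k' - 1) := by
        rw [mul_add, mul_one]; omega
      rw [this, Nat.mul_add_mod, Nat.mod_eq_of_lt (by omega)]
    exact h4 (top_zero h3 (by omega))
  · by_cases h7 : k' = 1
    · subst h7
      obtain ⟨h8, -, h9, -⟩ := next_same (S := S) (c := c) (by omega)
      exact h4 (top_zero' h3 (by omega) (h9.trans hk))
    · have h6 : (c + k') % (2 * S.n + 2) = k' - 2 := by
        have : c + k' = (2 * S.n + 2) * (c / (2 * S.n + 2) + 1) + (k' - 2) := by
          rw [mul_add, mul_one]; omega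
        rw [this, Nat.mul_add_mod, Nat.mod_eq_of_lt (by omega)]
      exact h4 (top_zero h3 (by omega))

end Sys

theorem u2 : U2Stmt := by
  intro S hS ty h
  have hOK := u1 S hS
  have h' := hOK.fits
  have hN := N_eq (S := S)
  have main : ∀ c, c < S.layout.M → (∀ r, r < S.layout.N →
      (ty c r).narrow = (S.layout.ty c r).narrow) → ∀ r, r < S.layout.N →
      ty c r = S.layout.ty c r := by
    intro c hc hn
    refine col_uniq h h' hc (top_ne_D hc) hn ?_
    intro r hr hb
    have h0 : c % (2 * S.n + 2) < 2 * S.n + 2 := Nat.mod_lt _ (by omega)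
    rcases Nat.lt_or_ge (c % (2 * S.n + 2)) (2 * S.n) with h1 | h1
    · exact Or.inl (top_zero hc h1)
    right
    -- if there are no signals, we are done
    have easy : (c % (2 * S.n + 2) = 2 * S.n + 1 ∨
      (c % (2 * S.n + 2) = 2 * S.n ∧ ∃ I κ, S.con c = .sum I κ)) →
      ((ty c r).top = .D ↔ (S.layout.ty c r).top = .D) := by
      intro ho
      have hno : ∀ ty' : ℕ → ℕ → Tile, Fits S.layout ty' → (ty' c r).top ≠ .D := by
        intro ty' hf hD
        by_cases h2 : r + 1 < S.layout.N
        · rw [hf.vert c r hc h2] at hD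
          exact noD hS hf hc h2 ho hD
        · have h3 := hf.ceil c hc
          have h4 : S.layout.N - 1 = r := by omega
          rw [h4, hD] at h3
          exact top_ne_D hc h3.symm
      exact ⟨fun hD => absurd hD (hno _ h), fun hD => absurd hD (hno _ h')⟩
    by_cases h2 : c % (2 * S.n + 2) = 2 * S.n + 1
    · exact easy (Or.inl h2)
    have h3 : c % (2 * S.n + 2) = 2 * S.n := by omega
    cases hk : S.con c with
    | sum I κ => exact easy (Or.inr ⟨h3, I, κ, hk⟩)
    | inv i j =>
      clear easy
      have hwf := con_WF hS c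
      rw [hk] at hwf
      obtain ⟨hij, hj⟩ := hwf
      have hpz : ∀ σ, pcol σ ≠ .zero := by decide
      have hpVW : ∀ σ, pcol σ = .V ∨ pcol σ = .W := by decide
      have hcol := top_nonzero hc h3
      -- the properties of the layout
      have hnar : ∀ r, r < S.layout.N → ((ty c r).narrow = true ↔
          (r + 1 + 2 * i = 2 * S.n ∨ r + 2 + 2 * j = 2 * S.n)) := by
        intro r hr
        rw [hn r hr, (ty_props hS c r).2.2.2.1, h3, hk, Bool.and_eq_true, dcell_iff]
        simp only [decide_eq_true_eq, Con.first, Con.second, List.mem_singleton,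
          exists_eq_left]
        omega
      have hbD : ∀ r, (S.layout.ty c r).bot = .D ↔ r + (2 * j + 1) = 2 * S.n := by
        intro r
        rw [(ty_props hS c r).1, h3, hk, hcol_eq]
        have : ∀ d v σ, (colOf d v σ = .D ↔ d = true) := by decide
        rw [this, dcell_iff]
        simp only [Con.first, Con.second, List.mem_singleton, exists_eq_left]
        omega
      have htD : (S.layout.ty c r).top = .D ↔ r + 1 + (2 * j + 1) = 2 * S.n := by
        rw [(ty_props hS c r).2.1, h3, hk, hcol_eq]
        have : ∀ d v σ, (colOf d v σ = .D ↔ d = true) := by decide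
        rw [this, dcell_iff]
        simp only [Con.first, Con.second, List.mem_singleton, exists_eq_left]
        omega
      rw [htD]
      constructor
      · intro hD
        have h4 := (hnar r hr).1 (tile_topD _ hD)
        rcases h4 with h4 | h4
        · exfalso
          have h5 := h.vert c r hc (by omega)
          rw [hD] at h5
          have h6 := (tile_D _ h5.symm).2.1
          have h7 := stay_zero h hc (S.layout.N - 1 - (r + 1)) (r + 1) (by omega) h6 (by
            intro r' h8 h9
            rw [Bool.eq_false_iff, Ne, hnar r' h9]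
            omega)
          rw [hcol] at h7
          exact hpz _ h7
        · omega
      · intro h4
        by_contra h5
        have h6 : (ty c r).narrow = true := (hnar r hr).2 (by omega)
        have h7 : (ty c r).top = pcol (S.sig c) := by
          rcases top_cases h hc hr with h8 | h8 | h8
          · exact absurd h8 (tile_narrow _ h6)
          · exact absurd h8 h5
          · rw [h8, hcol]
        have h8 := (stay_e h hc (hpVW _) (S.layout.N - 1 - r) r (by omega) h7).2
        have h9 : ∀ r', r' < S.layout.N → (ty c r').bot ≠ .D := by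
          intro r' h10 h11
          rcases Nat.lt_or_ge r r' with h12 | h12
          · rw [h8 r' h12 h10] at h11
            rcases hpVW (S.sig c) with h13 | h13 <;> rw [h13] at h11 <;> cases h11
          · rw [hb r' h12, hbD r'] at h11
            omega
        obtain ⟨h10, h10', h11, h12⟩ := next_same (S := S) (c := c) (by omega)
        have hc1 : c + 1 < S.layout.M := by
          refine (hOK.portL c (S.sig c) hc ?_).1
          rw [top_eq hc, hk]
          simp only [blockTop]
          rw [if_pos h3]
        have h13 : ∀ r', r' < S.layout.N → (ty (c + 1) r').narrow = false := by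
          intro r' h14
          rw [← h.horiz c r' hc1 h14, Bool.eq_false_iff]
          exact fun h15 => h9 r' h14 (tile_wide _ h15)
        have h14 : (ty (c + 1) 0).bot = .zero := by
          rw [h.floor (c + 1) hc1, (ty_props hS (c + 1) 0).1, hcol_eq, h10, h11, hk, h3]
          have h15 : dcell S.n (.inv i j) (2 * S.n + 1) 0 = false := by
            rw [Bool.eq_false_iff, Ne, dcell_iff]
            rintro (⟨h1, -⟩ | ⟨h1, -⟩) <;> omega
          have h16 : vcell S.n (.inv i j) (2 * S.n + 1) 0 = false := by
            rw [Bool.eq_false_iff, Ne, vcell_iff]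
            simp only [Con.first, Con.second, List.mem_singleton, exists_eq_left]
            omega
          rw [h15, h16]
          rfl
        have h15 := stay_zero h hc1 (S.layout.N - 1) 0 (by omega)
          (tile_plain _ h14 (h13 0 (by omega))) (fun r' _ h16 => h13 r' h16)
        rw [top_nonzero' hc1 (by omega) (h11.trans hk)] at h15
        exact hpz _ h15
  intro c
  induction c with
  | zero =>
    intro r hc hr
    refine main 0 hc (fun r hr => ?_) r hr
    rw [h.left r hr, h'.left r hr]
  | succ c ih =>
    intro r hc hr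
    refine main (c + 1) hc (fun r hr => ?_) r hr
    rw [← h.horiz c r hc hr, ← h'.horiz c r hc hr, ih r (by omega) hr]

end Pool.Agent.Helper61_Pack
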