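import Pool.Agent.Helper61_Pack.U1

/-!
# From displacements to a solution of the system (PACK module U3)
-/

set_option autoImplicit false

namespace Pool.Agent.Helper61_Pack

open Pool.Agent.Helper2_Pack

/-- the variables of the devices in a column -/
def devs (n : ℕ) (k : Con) (o : ℕ) : List ℕ :=
  if o = 2 * n then k.first else if o = 2 * n + 1 then k.second else []

theorem mk_sgn : ∀ σ vB : Bool,
    (mkTile (colOf false vB σ) true (colOf false true σ) false).sgn = sg σ := by decide

theorem sgn_val {n : ℕ} {k : Con} (hk : k.WF n) (σ : Bool) (o r : ℕ) :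
    (blockTile n σ k o r).sgn = if (∃ i ∈ devs n k o, 2 * n = r + 1 + 2 * i) then sg σ else 0 := by
  split_ifs with hex
  · obtain ⟨i, hi, h1⟩ := hex
    have h2 : (o = 2 * n ∧ i ∈ k.first) ∨ (o = 2 * n + 1 ∧ i ∈ k.second) := by
      unfold devs at hi
      split_ifs at hi with h3 h4
      · exact Or.inl ⟨h3, hi⟩
      · exact Or.inr ⟨h4, hi⟩
      · simp at hi
    have hleft : (decide (0 < o) && dcell n k (o - 1) r) = true := by
      rw [Bool.and_eq_true, dcell_iff]
      rcases h2 with ⟨h2, h3⟩ | ⟨h2, h3⟩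
      · exact ⟨by simp; omega, Or.inl ⟨by omega, i, h3, by omega⟩⟩
      · exact ⟨by simp; omega, Or.inr ⟨by omega, i, h3, by omega⟩⟩
    have hdT : dcell n k o (r + 1) = false := by
      rw [Bool.eq_false_iff, Ne, dcell_iff]
      rintro (⟨h3, j, -, h4⟩ | ⟨h3, j, -, h4⟩)
      · omega
      · rcases h2 with ⟨h2, h5⟩ | ⟨h2, h5⟩ <;> omega
    have hvT : vcell n k o (r + 1) = true := by
      rw [vcell_iff]
      rcases h2 with ⟨h2, h3⟩ | ⟨h2, h3⟩
      · exact Or.inl ⟨h2, i, h3, by omega⟩
      · exact Or.inr ⟨h2, i, h3, by omega⟩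
    have hdB : dcell n k o r = false := by
      rw [Bool.eq_false_iff]
      intro h3
      cases o with
      | zero => simp at hleft
      | succ o =>
        simp only [Nat.add_sub_cancel, Bool.and_eq_true] at hleft
        exact fact1 hk h3 hleft.2
    simp only [blockTile, hcol_eq]
    rw [hleft, hdT, hvT, hdB]
    exact mk_sgn _ _
  · by_contra h1
    apply hex
    rcases sgn_pos hk h1 with ⟨h2, i, hi, h3⟩ | ⟨h2, i, hi, h3⟩
    · refine ⟨i, ?_, h3⟩
      unfold devs
      rw [if_pos h2]
      exact hi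
    · refine ⟨i, ?_, h3⟩
      unfold devs
      rw [if_neg (by omega), if_pos h2]
      exact hi

theorem sum_devs (n : ℕ) (f : ℕ → ℝ) : ∀ J : List ℕ, J.Nodup → (∀ i ∈ J, i < n) →
    (∑ k ∈ Finset.range (2 * n + 1), if (∃ i ∈ J, 2 * n = k + 1 + 2 * i) then f k else 0) =
      (J.map (fun i => f (2 * n - 1 - 2 * i))).sum := by
  intro J
  induction J with
  | nil => intro _ _; simp
  | cons a J ih =>
    intro hJ hn
    rw [List.nodup_cons] at hJ
    rw [List.map_cons, List.sum_cons, ← ih hJ.2 (fun i hi => hn i (List.mem_cons_of_mem _ hi))]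
    have ha := hn a List.mem_cons_self
    have h1 : ∀ k ∈ Finset.range (2 * n + 1),
        (if (∃ i ∈ a :: J, 2 * n = k + 1 + 2 * i) then f k else 0) =
        (if k = 2 * n - 1 - 2 * a then f k else 0) +
          (if (∃ i ∈ J, 2 * n = k + 1 + 2 * i) then f k else 0) := by
      intro k _
      by_cases h2 : 2 * n = k + 1 + 2 * a
      · rw [if_pos ⟨a, List.mem_cons_self, h2⟩, if_pos (by omega), if_neg, add_zero]
        rintro ⟨i, hi, h3⟩
        apply hJ.1
        have : a = i := by omega
        rwa [this]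
      · rw [if_neg (show ¬ k = 2 * n - 1 - 2 * a by omega), zero_add]
        congr 1
        apply propext
        constructor
        · rintro ⟨i, hi, h3⟩
          rcases List.mem_cons.1 hi with rfl | hi
          · exact absurd h3 h2
          · exact ⟨i, hi, h3⟩
        · rintro ⟨i, hi, h3⟩
          exact ⟨i, List.mem_cons_of_mem _ hi, h3⟩
    rw [Finset.sum_congr rfl h1, Finset.sum_add_distrib]
    congr 1
    rw [Finset.sum_ite_eq' (Finset.range (2 * n + 1)) (2 * n - 1 - 2 * a) f, if_pos]
    rw [Finset.mem_range]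
    omega

theorem devs_props {n : ℕ} {k : Con} (hk : k.WF n) (o : ℕ) :
    (devs n k o).Nodup ∧ (∀ i ∈ devs n k o, i < n) ∧ (devs n k o).length ≤ 3 := by
  unfold devs
  split_ifs
  · refine ⟨?_, WF_first hk, ?_⟩
    · cases k with
      | sum I κ => exact hk.2.2.1
      | inv i j => simp [Con.first]
    · cases k with
      | sum I κ => exact hk.2.1
      | inv i j => simp [Con.first]
  · refine ⟨?_, fun i hi => (WF_second hk i hi).1, ?_⟩
    · cases k <;> simp [Con.second]
    · cases k <;> simp [Con.second]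
  · simp

section Cols

variable {S : SInst} (hS : S.WF)
include hS

theorem disp_top (x : ℕ → ℝ) (c : ℕ) : S.layout.disp x c (2 * S.n) =
    sg (S.sig c) * ((devs S.n (S.con c) (c % (2 * S.n + 2))).map
      (fun i => x (2 * S.n - 1 - 2 * i))).sum := by
  obtain ⟨h1, h2, -⟩ := devs_props (con_WF hS c) (c % (2 * S.n + 2))
  unfold Layout.disp
  rw [← sum_devs S.n x _ h1 h2, Finset.mul_sum]
  refine Finset.sum_congr rfl (fun k _ => ?_)
  have h3 : (S.layout.ty c k).sgn = _ := sgn_val (con_WF hS c) (S.sig c) (c % (2 * S.n + 2)) k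
  rw [h3]
  split_ifs
  · rfl
  · simp

theorem Y_ge {q : ℝ} {xl xr Y : ℕ → ℕ → ℝ} (hW : Wit q S.layout xl xr Y) {x : ℕ → ℝ}
    {c : ℕ} (hc : c < S.layout.M)
    (hx1 : ∀ r, r < S.layout.N → r % 2 = 1 → S.sig c = true → x r ≤ xl c r)
    (hx2 : ∀ r, r < S.layout.N → r % 2 = 1 → S.sig c = false → xr c r ≤ x r) :
    S.layout.disp x c (2 * S.n) ≤ Y c (2 * S.n) := by
  have hN := N_eq (S := S)
  have hodd : ∀ r, r % 2 = 0 → (S.layout.ty c r).sgn = 0 := by
    intro r hr
    have h3 : (S.layout.ty c r).sgn = _ := sgn_val (con_WF hS c) (S.sig c) (c % (2 * S.n + 2)) r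
    rw [h3, if_neg]
    rintro ⟨i, -, h4⟩
    omega
  have hval : ∀ r, (S.layout.ty c r).sgn = sg (S.sig c) ∨ (S.layout.ty c r).sgn = 0 := by
    intro r
    have h3 : (S.layout.ty c r).sgn = _ := sgn_val (con_WF hS c) (S.sig c) (c % (2 * S.n + 2)) r
    rw [h3]
    split_ifs
    · exact Or.inl rfl
    · exact Or.inr rfl
  have key : ∀ t, t ≤ S.n → (∑ k ∈ Finset.range (2 * t + 1),
      ((S.layout.ty c k).sgn : ℝ) * x k) ≤ Y c (2 * t) := by
    intro t
    induction t with
    | zero =>
      intro _
      have := hodd 0 rfl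
      simp only [mul_zero, zero_add, Finset.range_one, Finset.sum_singleton, this, Int.cast_zero,
        zero_mul]
      exact hW.base c hc
    | succ t ih =>
      intro ht
      have h1 := ih (by omega)
      rw [show 2 * (t + 1) + 1 = 2 * t + 1 + 1 + 1 by omega, Finset.sum_range_succ,
        Finset.sum_range_succ, hodd (2 * t + 1 + 1) (by omega), Int.cast_zero, zero_mul, add_zero]
      have h2 : Y c (2 * t) + ((S.layout.ty c (2 * t + 1)).sgn : ℝ) * x (2 * t + 1) ≤
          Y c (2 * (t + 1)) := by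
        have hr : 2 * t + 1 < S.layout.N := by omega
        have hr' : (2 * t + 1) % 2 = 1 := by omega
        rw [show 2 * (t + 1) = 2 * t + 1 + 1 by omega]
        rcases hval (2 * t + 1) with h3 | h3
        · cases hσ : S.sig c with
          | true =>
            rw [hσ] at h3
            have h4 := hW.plus c (2 * t + 1) hc hr hr' h3
            have h5 := hx1 (2 * t + 1) hr hr' hσ
            rw [Nat.add_sub_cancel] at h4
            rw [h3]
            simp only [sg, Int.cast_one, one_mul]
            linarith only [h4, h5]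
          | false =>
            rw [hσ] at h3
            have h4 := hW.minus c (2 * t + 1) hc hr hr' h3
            have h5 := hx2 (2 * t + 1) hr hr' hσ
            rw [Nat.add_sub_cancel] at h4
            rw [h3]
            simp only [sg, Int.cast_neg, Int.cast_one, neg_mul, one_mul]
            linarith only [h4, h5]
        · have h4 := hW.step c (2 * t + 1) hc hr hr' h3
          rw [Nat.add_sub_cancel] at h4
          rw [h3]
          simp only [Int.cast_zero, zero_mul, add_zero]
          exact h4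
      linarith
  exact key S.n le_rfl

end Cols

/-- the two blocks of a constraint -/
theorem block_pos {S : SInst} {b : ℕ} (hb : b < S.cons.length) {o : ℕ} (ho : o < 2 * S.n + 2)
    (σ : Bool) : ∃ c, c < S.layout.M ∧ c % (2 * S.n + 2) = o ∧ S.con c = S.cons[b] ∧ S.sig c = σ := by
  have hM := M_eq (S := S)
  have hB : 0 < 2 * S.n + 2 := by omega
  have hdiv : ∀ d, ((2 * S.n + 2) * d + o) / (2 * S.n + 2) = d := by
    intro d
    rw [Nat.mul_add_div hB, Nat.div_eq_of_lt ho, add_zero]
  have hmod : ∀ d, ((2 * S.n + 2) * d + o) % (2 * S.n + 2) = o := by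
    intro d
    rw [Nat.mul_add_mod, Nat.mod_eq_of_lt ho]
  have hlt : ∀ d, d < 2 * S.cons.length → (2 * S.n + 2) * d + o < S.layout.M := by
    intro d hd
    rw [hM]
    calc (2 * S.n + 2) * d + o < (2 * S.n + 2) * d + (2 * S.n + 2) := by omega
      _ = (d + 1) * (2 * S.n + 2) := by ring
      _ ≤ 2 * S.cons.length * (2 * S.n + 2) := Nat.mul_le_mul_right _ (by omega)
  cases σ with
  | false =>
    refine ⟨(2 * S.n + 2) * b + o, hlt b (by omega), hmod b, ?_, ?_⟩
    · unfold SInst.con
      rw [hdiv, Nat.mod_eq_of_lt hb, List.getD_eq_getElem _ _ hb]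
    · unfold SInst.sig
      rw [hdiv]
      simpa using hb
  | true =>
    refine ⟨(2 * S.n + 2) * (S.cons.length + b) + o, hlt _ (by omega), hmod _, ?_, ?_⟩
    · unfold SInst.con
      rw [hdiv, Nat.add_mod_left, Nat.mod_eq_of_lt hb, List.getD_eq_getElem _ _ hb]
    · unfold SInst.sig
      rw [hdiv]
      simp

theorem u3 : U3Stmt := by
  intro S q xl xr Y hS hq hq2 hW
  have hN := N_eq (S := S)
  have hM := M_eq (S := S)
  have hOK := u1 S hS
  have hL := len_pos hS
  set m : ℕ := S.cons.length * (2 * S.n + 2) with hm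
  have hm0 : 0 < m := Nat.mul_pos hL (by omega)
  have hmM : S.layout.M = 2 * m := by rw [hM, hm]; ring
  have hq4 : 0 < q ^ 4 := pow_pos hq 4
  -- the rows
  have hmono : ∀ r, r < S.layout.N → r % 2 = 1 → ∀ d c, c + d < S.layout.M →
      xr c r ≤ xr (c + d) r := by
    intro r hr hr' d
    induction d with
    | zero => intro c _; exact le_rfl
    | succ d ih =>
      intro c hcd
      have h1 := ih c (by omega)
      have h2 := hW.adj (c + d) r hcd hr hr'
      have h3 := hW.wid (c + d + 1) r hcd hr hr'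
      exact h1.trans (h2.trans h3)
  set x : ℕ → ℝ := fun r => xr (m - 1) r with hx
  have hx1 : ∀ c r, c < S.layout.M → m ≤ c → r < S.layout.N → r % 2 = 1 → x r ≤ xl c r := by
    intro c r hc hmc hr hr'
    have h1 := hmono r hr hr' (c - m) (m - 1) (by omega)
    have h2 := hW.adj (m - 1 + (c - m)) r (by omega) hr hr'
    have h3 : m - 1 + (c - m) + 1 = c := by omega
    rw [h3] at h2
    exact h1.trans h2
  have hx2 : ∀ c r, c < m → r < S.layout.N → r % 2 = 1 → xr c r ≤ x r := by
    intro c r hc hr hr'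
    have h1 := hmono r hr hr' (m - 1 - c) c (by omega)
    have h3 : c + (m - 1 - c) = m - 1 := by omega
    rwa [h3] at h1
  have hx3 : ∀ r, r < S.layout.N → r % 2 = 1 → |x r| ≤ q ^ 4 := by
    intro r hr hr'
    rw [abs_le]
    constructor
    · have h1 := hW.left r hr hr'
      have h2 := hW.wid 0 r (by omega) hr hr'
      have h3 := hx2 0 r hm0 hr hr'
      linarith only [h1, h2, h3]
    · have h1 := hW.right r hr hr'
      have h2 := hmono r hr hr' (S.layout.M - 1 - (m - 1)) (m - 1) (by omega)
      have h3 : m - 1 + (S.layout.M - 1 - (m - 1)) = S.layout.M - 1 := by omega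
      rw [h3] at h2
      exact h2.trans h1
  have hsig : ∀ c, c < S.layout.M → (S.sig c = true ↔ m ≤ c) := by
    intro c _
    unfold SInst.sig
    rw [decide_eq_true_eq, Nat.le_div_iff_mul_le (by omega)]
  have hY : ∀ c, c < S.layout.M → S.layout.disp x c (2 * S.n) ≤ Y c (2 * S.n) := by
    intro c hc
    refine Y_ge hS hW hc (fun r hr hr' hσ => ?_) (fun r hr hr' hσ => ?_)
    · exact hx1 c r hc ((hsig c hc).1 hσ) hr hr'
    · refine hx2 c r ?_ hr hr'
      by_contra h1
      rw [(hsig c hc).2 (by omega)] at hσ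
      cases hσ
  set z : ℕ → ℝ := fun i => x (2 * S.n - 1 - 2 * i) / q ^ 4 with hz
  have hxz : ∀ i, x (2 * S.n - 1 - 2 * i) = q ^ 4 * z i := by
    intro i
    simp only [hz]
    field_simp
  have hz1 : ∀ i, i < S.n → |z i| ≤ 1 := by
    intro i hi
    have h1 := hx3 (2 * S.n - 1 - 2 * i) (by omega) (by omega)
    simp only [hz]
    rw [abs_div, abs_of_pos hq4, div_le_one hq4]
    exact h1
  have hdisp : ∀ c, S.layout.disp x c (2 * S.n) = sg (S.sig c) * (q ^ 4 *
      ((devs S.n (S.con c) (c % (2 * S.n + 2))).map z).sum) := by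
    intro c
    rw [disp_top hS x c]
    congr 1
    rw [← List.sum_map_mul_left]
    congr 1
    apply List.map_congr_left
    intro i _
    exact hxz i
  refine ⟨z, hz1, ?_⟩
  intro k hk
  obtain ⟨b, hb, hkb⟩ := List.getElem_of_mem hk
  have hkW := hS.2 k hk
  cases k with
  | sum I κ =>
    show (I.map z).sum = κ
    have hdev : devs S.n (.sum I κ) (2 * S.n) = I := by simp [devs, Con.first]
    apply le_antisymm
    · obtain ⟨c, hc, ho, hcon, hσ⟩ := block_pos hb (show 2 * S.n < 2 * S.n + 2 by omega) true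
      rw [hkb] at hcon
      have h1 := hY c hc
      rw [hdisp c, ho, hcon, hσ, hdev] at h1
      have h2 := hW.ceil c (pcol true) (sg true * κ) hc (by
        rw [top_eq hc, ho, hcon, hσ]
        simp [blockTop])
      rw [hN, Nat.add_sub_cancel] at h2
      have h3 := h1.trans h2
      simp only [sg, Int.cast_one, one_mul] at h3
      nlinarith only [h3, hq4]
    · obtain ⟨c, hc, ho, hcon, hσ⟩ := block_pos hb (show 2 * S.n < 2 * S.n + 2 by omega) false
      rw [hkb] at hcon
      have h1 := hY c hc
      rw [hdisp c, ho, hcon, hσ, hdev] at h1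
      have h2 := hW.ceil c (pcol false) (sg false * κ) hc (by
        rw [top_eq hc, ho, hcon, hσ]
        simp [blockTop])
      rw [hN, Nat.add_sub_cancel] at h2
      have h3 := h1.trans h2
      simp only [sg, Int.cast_neg, Int.cast_one, neg_mul, one_mul, Int.reduceNeg] at h3
      nlinarith only [h3, hq4]
  | inv i j =>
    obtain ⟨hij, hj⟩ := hkW
    show z i + z j + epsOf q * (z i * z j) = 0
    have hdev : devs S.n (.inv i j) (2 * S.n) = [i] := by simp [devs, Con.first]
    have hdev' : devs S.n (.inv i j) (2 * S.n + 1) = [j] := by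
      simp [devs, Con.second]
    have hzi := abs_le.1 (hz1 i (by omega))
    have hzj := abs_le.1 (hz1 j hj)
    set A : ℝ := 10 / 32 * (1 + q ^ 2) with hA
    have hA1 : 1 / 4 < A := by rw [hA]; linarith only [sq_nonneg q]
    have hq1 : q < 1 / 1000 := lt_of_le_of_lt hq2 (by norm_num)
    have hA0 : (0 : ℝ) < A := by linarith only [hA1]
    have heps : epsOf q = 2 * q ^ 5 / A := rfl
    -- the lever inequality with the true displacements
    have hlev : ∀ σ : Bool, A * ((sg σ : ℝ) * (q ^ 4 * z i) + (sg σ : ℝ) * (q ^ 4 * z j)) +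
        2 * sg σ * q * (((sg σ : ℝ) * (q ^ 4 * z i)) * ((sg σ : ℝ) * (q ^ 4 * z j))) ≤ 0 := by
      intro σ
      obtain ⟨c, hc, ho, hcon, hσ⟩ := block_pos hb (show 2 * S.n < 2 * S.n + 2 by omega) σ
      rw [hkb] at hcon
      have htop : S.layout.top c = .portL σ := by
        rw [top_eq hc, ho, hcon, hσ]
        simp [blockTop]
      obtain ⟨hc1, -⟩ := hOK.portL c σ hc htop
      obtain ⟨ho', -, hcon', hσ'⟩ := next_same (S := S) (c := c) (by omega)
      obtain ⟨hl1, hl2, hl3⟩ := hW.lever c σ hc htop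
      rw [hN, Nat.add_sub_cancel] at hl1 hl2 hl3
      have h1 := hY c hc
      have h2 := hY (c + 1) hc1
      rw [hdisp, ho, hcon, hσ, hdev, List.map_singleton, List.sum_singleton] at h1
      rw [hdisp, ho', hcon', hσ', ho, hcon, hσ, hdev', List.map_singleton, List.sum_singleton] at h2
      set Ya := Y c (2 * S.n) with hYa
      set Yb := Y (c + 1) (2 * S.n) with hYb
      set a := (sg σ : ℝ) * (q ^ 4 * z i) with ha
      set b' := (sg σ : ℝ) * (q ^ 4 * z j) with hb'
      have hs : (sg σ : ℝ) = 1 ∨ (sg σ : ℝ) = -1 := by cases σ <;> simp [sg]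
      have hl1' := abs_le.1 hl1
      have hq2' : q ^ 2 ≤ 1 := by nlinarith only [hq, hq2]
      have hq41 : q ^ 4 ≤ 1 := by nlinarith only [hq2']
      have hb'1 : |b'| ≤ 1 := by
        rw [abs_le]
        rcases hs with hs | hs <;> rw [hb', hs] <;> constructor <;> nlinarith only [hq2', hq4, hzj]
      have hb'2 := abs_le.1 hb'1
      -- f(a, b') ≤ f(Ya, b') ≤ f(Ya, Yb)
      have e1 : 0 ≤ A + 2 * sg σ * q * b' := by
        rcases hs with hs | hs <;> rw [hs] <;> nlinarith only [hq2, hA, hq, hb'2]
      have e2 : 0 ≤ A + 2 * sg σ * q * Ya := by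
        rcases hs with hs | hs <;> rw [hs] <;> nlinarith only [hq2, hA, hq, hl1']
      have e3 : 0 ≤ (A + 2 * sg σ * q * b') * (Ya - a) := mul_nonneg e1 (by linarith only [h1])
      have e4 : 0 ≤ (A + 2 * sg σ * q * Ya) * (Yb - b') := mul_nonneg e2 (by linarith only [h2])
      nlinarith only [hA, h2, hl1', hb'2, e3, e4, hl3]
    have h1 := hlev true
    have h2 := hlev false
    simp only [sg, Int.cast_one, Int.cast_neg, Int.reduceNeg] at h1 h2
    have h3 : A * (q ^ 4 * (z i + z j)) + 2 * q ^ 9 * (z i * z j) = 0 := by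
      linarith only [h1, h2]
    have h4 : q ^ 4 * (A * (z i + z j) + 2 * q ^ 5 * (z i * z j)) = 0 := by
      linear_combination h3
    rcases mul_eq_zero.1 h4 with h5 | h5
    · exact absurd h5 hq4.ne'
    · rw [heps]
      field_simp
      linear_combination h5

end Pool.Agent.Helper61_Pack
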