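import Pool.Agent.Helper61_Pack.U3

/-!
# From a solution of the system to displacements (PACK module U4)
-/

set_option autoImplicit false

namespace Pool.Agent.Helper61_Pack

open Pool.Agent.Helper2_Pack

theorem u4 : U4Stmt := by
  intro S q hS hq hq2 ⟨z, hz1, hz2⟩
  have hN := N_eq (S := S)
  have hOK := u1 S hS
  have hL := len_pos hS
  have hq4 : 0 < q ^ 4 := pow_pos hq 4
  set x : ℕ → ℝ := fun r => if r % 2 = 1 ∧ r < 2 * S.n then q ^ 4 * z ((2 * S.n - 1 - r) / 2)
    else 0 with hx
  have hxz : ∀ i, i < S.n → x (2 * S.n - 1 - 2 * i) = q ^ 4 * z i := by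
    intro i hi
    simp only [hx]
    rw [if_pos ⟨by omega, by omega⟩]
    congr 2
    omega
  have hrow : ∀ r, |x r| ≤ q ^ 4 := by
    intro r
    simp only [hx]
    split_ifs with h1
    · rw [abs_mul, abs_of_pos hq4]
      have h2 := hz1 ((2 * S.n - 1 - r) / 2) (by omega)
      nlinarith
    · rw [abs_zero]; exact hq4.le
  have hdisp : ∀ c, S.layout.disp x c (2 * S.n) = sg (S.sig c) * (q ^ 4 *
      ((devs S.n (S.con c) (c % (2 * S.n + 2))).map z).sum) := by
    intro c
    obtain ⟨-, h2, -⟩ := devs_props (con_WF hS c) (c % (2 * S.n + 2))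
    rw [disp_top hS x c]
    congr 1
    rw [← List.sum_map_mul_left]
    congr 1
    apply List.map_congr_left
    intro i hi
    exact hxz i (h2 i hi)
  refine ⟨x, hrow, ?_, ?_, ?_, ?_⟩
  · intro r hr
    simp only [hx]
    rw [if_neg]
    rintro ⟨h1, -⟩
    omega
  · intro c r hc hr
    obtain ⟨h1, h2, h3⟩ := devs_props (con_WF hS c) (c % (2 * S.n + 2))
    have h4 := sum_devs S.n (fun _ => q ^ 4) _ h1 h2
    have h5 : ∀ k, |((S.layout.ty c k).sgn : ℝ) * x k| ≤
        if (∃ i ∈ devs S.n (S.con c) (c % (2 * S.n + 2)), 2 * S.n = k + 1 + 2 * i)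
          then q ^ 4 else 0 := by
      intro k
      have h6 : (S.layout.ty c k).sgn = _ :=
        sgn_val (con_WF hS c) (S.sig c) (c % (2 * S.n + 2)) k
      rw [h6]
      split_ifs
      · rw [abs_mul]
        have h7 : |((sg (S.sig c) : ℤ) : ℝ)| = 1 := by cases S.sig c <;> simp [sg]
        rw [h7, one_mul]
        exact hrow k
      · simp
    unfold Layout.disp
    calc |∑ k ∈ Finset.range (r + 1), ((S.layout.ty c k).sgn : ℝ) * x k|
        ≤ ∑ k ∈ Finset.range (r + 1), |((S.layout.ty c k).sgn : ℝ) * x k| :=
          Finset.abs_sum_le_sum_abs _ _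
      _ ≤ ∑ k ∈ Finset.range (r + 1),
          (if (∃ i ∈ devs S.n (S.con c) (c % (2 * S.n + 2)), 2 * S.n = k + 1 + 2 * i)
          then q ^ 4 else 0) := Finset.sum_le_sum (fun k _ => h5 k)
      _ ≤ ∑ k ∈ Finset.range (2 * S.n + 1),
          (if (∃ i ∈ devs S.n (S.con c) (c % (2 * S.n + 2)), 2 * S.n = k + 1 + 2 * i)
          then q ^ 4 else 0) := by
          apply Finset.sum_le_sum_of_subset_of_nonneg
          · intro k hk
            rw [Finset.mem_range] at hk ⊢
            omega
          · intro k _ _
            split_ifs
            · exact hq4.le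
            · exact le_rfl
      _ ≤ 3 * q ^ 4 := by
          rw [h4, List.map_const', List.sum_replicate, nsmul_eq_mul]
          have : ((devs S.n (S.con c) (c % (2 * S.n + 2))).length : ℝ) ≤ 3 := by exact_mod_cast h3
          exact mul_le_mul_of_nonneg_right this hq4.le
  · intro c a o hc htop
    rw [hN, Nat.add_sub_cancel, hdisp c]
    rw [top_eq hc] at htop
    cases hk : S.con c with
    | sum I κ =>
      rw [hk] at htop
      simp only [blockTop] at htop
      split at htop
      · next h1 =>
        simp only [Top.flat.injEq] at htop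
        obtain ⟨-, rfl⟩ := htop
        have hdev : devs S.n (.sum I κ) (c % (2 * S.n + 2)) = I := by simp [devs, Con.first, h1]
        have hmem : S.con c ∈ S.cons := by
          have h1 : c / (2 * S.n + 2) % S.cons.length < S.cons.length := Nat.mod_lt _ hL
          unfold SInst.con
          rw [List.getD_eq_getElem _ _ h1]
          exact List.getElem_mem h1
        rw [hk] at hmem
        have h3 : (I.map z).sum = κ := hz2 _ hmem
        rw [hdev, h3]
        push_cast
        exact le_of_eq (by ring)
      · next h1 =>
        simp only [Top.flat.injEq] at htop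
        obtain ⟨-, rfl⟩ := htop
        have hdev : devs S.n (.sum I κ) (c % (2 * S.n + 2)) = [] := by
          simp [devs, Con.second, h1]
        rw [hdev]
        simp
    | inv i j =>
      rw [hk] at htop
      simp only [blockTop] at htop
      split at htop
      · simp at htop
      · next h1 =>
        split at htop
        · simp at htop
        · next h2 =>
          simp only [Top.flat.injEq] at htop
          obtain ⟨-, rfl⟩ := htop
          have hdev : devs S.n (.inv i j) (c % (2 * S.n + 2)) = [] := by
            simp [devs, h1, h2]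
          rw [hdev]
          simp
  · intro c σ hc htop
    obtain ⟨hc1, -⟩ := hOK.portL c σ hc htop
    rw [top_eq hc] at htop
    cases hk : S.con c with
    | sum I κ =>
      rw [hk] at htop
      simp only [blockTop] at htop
      split at htop <;> simp at htop
    | inv i j =>
      rw [hk] at htop
      simp only [blockTop] at htop
      split at htop
      · next ho =>
        simp only [Top.portL.injEq] at htop
        obtain ⟨ho', -, hcon', hσ'⟩ := next_same (S := S) (c := c) (by omega)
        have hwf := con_WF hS c
        rw [hk] at hwf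
        obtain ⟨hij, hj⟩ := hwf
        have hdev : devs S.n (.inv i j) (2 * S.n) = [i] := by simp [devs, Con.first]
        have hdev' : devs S.n (.inv i j) (2 * S.n + 1) = [j] := by
          simp [devs, Con.second]
        have hmem : S.con c ∈ S.cons := by
          have h1 : c / (2 * S.n + 2) % S.cons.length < S.cons.length := Nat.mod_lt _ hL
          unfold SInst.con
          rw [List.getD_eq_getElem _ _ h1]
          exact List.getElem_mem h1
        rw [hk] at hmem
        have h3 : z i + z j + epsOf q * (z i * z j) = 0 := hz2 _ hmem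
        rw [hN, Nat.add_sub_cancel, hdisp c, hdisp (c + 1), hcon', hσ', ho', hk, ho, hdev, hdev',
          htop]
        simp only [List.map_singleton, List.sum_singleton]
        have hzi := abs_le.1 (hz1 i (by omega))
        have hzj := abs_le.1 (hz1 j hj)
        have hs : (sg σ : ℝ) = 1 ∨ (sg σ : ℝ) = -1 := by cases σ <;> simp [sg]
        refine ⟨?_, ?_, ?_⟩
        · rw [abs_mul, abs_mul, abs_of_pos hq4]
          have h7 : |((sg σ : ℤ) : ℝ)| = 1 := by cases σ <;> simp [sg]
          rw [h7, one_mul]
          have := hz1 i (by omega)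
          nlinarith
        · rw [abs_mul, abs_mul, abs_of_pos hq4]
          have h7 : |((sg σ : ℤ) : ℝ)| = 1 := by cases σ <;> simp [sg]
          rw [h7, one_mul]
          have := hz1 j hj
          nlinarith
        · have hA0 : (0 : ℝ) < 10 / 32 * (1 + q ^ 2) := by positivity
          have heps : epsOf q * (10 / 32 * (1 + q ^ 2)) = 2 * q ^ 5 := by
            unfold epsOf
            field_simp
          have h8 : 10 / 32 * (1 + q ^ 2) * (q ^ 4 * z i + q ^ 4 * z j) +
              2 * q * ((q ^ 4 * z i) * (q ^ 4 * z j)) = 0 := by
            linear_combination (10 / 32 * (1 + q ^ 2) * q ^ 4) * h3 - (q ^ 4 * z i * z j) * heps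
          rcases hs with hs | hs <;> rw [hs]
          · exact le_of_eq (by linear_combination h8)
          · exact le_of_eq (by linear_combination -h8)
      · split at htop <;> simp at htop

end Pool.Agent.Helper61_Pack
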